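import Pool.Agent.W997.SR.PebProg
import Pool.Agent.W997.DB.Stmt
import Pool.Agent.W924.LNMUX
import Pool.Agent.W762.LNLAY

/-!
# Circuits for the evaluation of directed acyclic graphs with sum addresses
-/

set_option autoImplicit false

namespace Pool.Agent.TH668.Peb

open Finset
open Pool.Agent.W997.SR
open Pool.Agent.W997.TS (DBP bit)
open Pool.Agent.W997.DB (Circuit bits)
open Pool.Agent.W997.LN (Fml)
open Pool.Agent.W924.LNMUX (mux mux_eval mux_depth mux_size mux_all lb)

variable (G : Dag) (d ℓ : ℕ)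

/-- The child with the number `s`, if there are more than `s` children. -/
noncomputable def kidAt (v : G.Γ) (s : Fin d) : Option G.Γ :=
  if h : s.val < (G.kid v).card then some ((G.kid v).equivFin.symm ⟨s.val, h⟩).1 else none

theorem kidAt_mem {v : G.Γ} {s : Fin d} {c : G.Γ} (h : kidAt G d v s = some c) : c ∈ G.kid v := by
  unfold kidAt at h
  split_ifs at h with h1
  have h2 := Option.some.inj h
  rw [← h2]
  exact ((G.kid v).equivFin.symm ⟨s.val, h1⟩).2

theorem sum_kidAt {M : Type} [AddCommMonoid M] (v : G.Γ) (hd : (G.kid v).card ≤ d) (z : G.Γ → M) :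
    ∑ s : Fin d, ((kidAt G d v s).elim 0 z) = ∑ c ∈ G.kid v, z c := by
  obtain ⟨r, hr⟩ := Nat.exists_eq_add_of_le hd
  subst hr
  rw [Fin.sum_univ_add]
  have h1 : ∀ i : Fin r, (kidAt G ((G.kid v).card + r) v (Fin.natAdd (G.kid v).card i)).elim 0 z
      = 0 := by
    intro i
    unfold kidAt
    rw [dif_neg (by simp)]
    rfl
  have h2 : ∀ i : Fin (G.kid v).card,
      (kidAt G ((G.kid v).card + r) v (Fin.castAdd r i)).elim 0 z =
        z ((G.kid v).equivFin.symm i).1 := by
    intro i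
    unfold kidAt
    rw [dif_pos (by simp)]
    rfl
  rw [Finset.sum_congr rfl (fun i _ => h1 i), Finset.sum_congr rfl (fun i _ => h2 i),
    Finset.sum_const_zero, add_zero, Equiv.sum_comp (G.kid v).equivFin.symm (fun c => z c.1),
    sum_coe_sort (G.kid v) z]

/-- The literals. -/
abbrev Lits : Type := (G.Var (2 ^ ℓ) × Fin ℓ) ⊕ (G.Γ × Fin ℓ)

/-- The bit `q.2` of the value of the child with the number `q.1`. -/
noncomputable def addr (w : G.Γ × Fin ℓ) (q : Fin (d * ℓ)) : Fml (Lits G ℓ) :=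
  match kidAt G d w.1 (finProdFinEquiv.symm q).1 with
  | none => .and (.lit (.inl ((w.1, 0), w.2))) (.not (.lit (.inl ((w.1, 0), w.2))))
  | some c => .lit (.inr (c, (finProdFinEquiv.symm q).2))

/-- The entry for given bits of the children. -/
noncomputable def leaf (w : G.Γ × Fin ℓ) (u : Fin (d * ℓ) → Bool) : Lits G ℓ :=
  .inl ((w.1, ∑ s : Fin d, lb (fun e => u (finProdFinEquiv (s, e)))), w.2)

/-- The formula for a bit of the value of a node. -/
noncomputable def phi (w : G.Γ × Fin ℓ) : Fml (Lits G ℓ) :=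
  mux (addr G d ℓ w) (leaf G d ℓ w) (d * ℓ) (fun _ => false)

/-- The bits of the values. -/
def valBit (x : G.Var (2 ^ ℓ) → Fin (2 ^ ℓ)) (w : G.Γ × Fin ℓ) : Bool :=
  (Dag.value x w.1).val.testBit w.2.val

theorem phi_eval (hd : ∀ v, (G.kid v).card ≤ d) (x : G.Var (2 ^ ℓ) → Fin (2 ^ ℓ))
    (w : G.Γ × Fin ℓ) :
    valBit G ℓ x w = (phi G d ℓ w).eval (Sum.elim (bits x) (valBit G ℓ x)) := by
  unfold phi
  rw [mux_eval]
  have h0 : ∀ s : Fin d,
      (lb (fun e : Fin ℓ => if (finProdFinEquiv (s, e)).val < d * ℓ then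
        (addr G d ℓ w (finProdFinEquiv (s, e))).eval (Sum.elim (bits x) (valBit G ℓ x))
        else false) : Fin (2 ^ ℓ)) = (kidAt G d w.1 s).elim 0 (Dag.value x) := by
    intro s
    have h1 : (fun e : Fin ℓ => if (finProdFinEquiv (s, e)).val < d * ℓ then
        (addr G d ℓ w (finProdFinEquiv (s, e))).eval (Sum.elim (bits x) (valBit G ℓ x))
        else false) = fun e : Fin ℓ => (kidAt G d w.1 s).elim false
          (fun c => (Dag.value x c).val.testBit e.val) := by
      funext e
      rw [if_pos (finProdFinEquiv (s, e)).2]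
      unfold addr
      rw [Equiv.symm_apply_apply]
      cases hk : kidAt G d w.1 s with
      | none =>
        simp only [Fml.eval, Option.elim]
        simp
      | some c =>
        simp only [Fml.eval, Option.elim, Sum.elim_inr, valBit]
    rw [h1]
    cases hk : kidAt G d w.1 s with
    | none =>
      apply Fin.ext
      simp only [lb, Option.elim]
      have h2 : Nat.ofBits (fun _ : Fin ℓ => false) = 0 := by
        have h3 := Nat.ofBits_testBit 0 ℓ
        simp only [Nat.zero_testBit, Nat.zero_mod] at h3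
        exact h3
      rw [h2]
      simp
    | some c =>
      apply Fin.ext
      simp only [lb, Option.elim]
      rw [Nat.ofBits_testBit, Nat.mod_eq_of_lt (Fin.is_lt _)]
  have h4 : Dag.value x w.1 = x (w.1, ∑ s : Fin d,
      (lb (fun e : Fin ℓ => if (finProdFinEquiv (s, e)).val < d * ℓ then
        (addr G d ℓ w (finProdFinEquiv (s, e))).eval (Sum.elim (bits x) (valBit G ℓ x))
        else false) : Fin (2 ^ ℓ))) := by
    rw [Finset.sum_congr rfl (fun s _ => h0 s), sum_kidAt G d w.1 (hd w.1) (Dag.value x)]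
    exact Dag.value_eq x w.1
  unfold valBit leaf
  simp only [Sum.elim_inl, bits]
  rw [h4]
  rfl

theorem addr_depth (w : G.Γ × Fin ℓ) (q : Fin (d * ℓ)) : (addr G d ℓ w q).depth ≤ 2 := by
  unfold addr
  split <;> simp [Fml.depth]

theorem addr_size (w : G.Γ × Fin ℓ) (q : Fin (d * ℓ)) : (addr G d ℓ w q).size ≤ 4 := by
  unfold addr
  split <;> simp [Fml.size]

theorem addr_all (w : G.Γ × Fin ℓ) (q : Fin (d * ℓ)) :
    (addr G d ℓ w q).All (fun z => ∀ w', z = Sum.inr w' → G.rk w'.1 < G.rk w.1) := by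
  unfold addr
  split
  · simp [Fml.All]
  · next c hc =>
    simp only [Fml.All]
    intro w' hw'
    have h1 := Sum.inr.inj hw'
    rw [← h1]
    exact G.kid_lt w.1 c (kidAt_mem G d hc)

/-- **The circuits.** -/
theorem circuit (H : ℕ) (hd : ∀ v, (G.kid v).card ≤ d) (hH : ∀ v, G.rk v ≤ H) (hℓ : 0 < ℓ)
    (v₀ : G.Γ) :
    ∃ C : Circuit (G.Var (2 ^ ℓ) × Fin ℓ),
      C.size ≤ (Fintype.card G.Γ * ℓ + 1) * (13 * 2 ^ (d * ℓ)) ∧
      C.depth ≤ (H + 2) * (2 * (d * ℓ) + 4) ∧
      ∀ x : G.Var (2 ^ ℓ) → Fin (2 ^ ℓ), C.Outputs (bits x) (bit (Dag.value x v₀)) := by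
  obtain ⟨C, h1, h2, h3⟩ := Pool.Agent.W762.LNLAY.main (G.Var (2 ^ ℓ) × Fin ℓ) (G.Γ × Fin ℓ)
    (fun w => G.rk w.1) H (2 * (d * ℓ) + 3) (13 * 2 ^ (d * ℓ)) (phi G d ℓ)
    (.not (.lit (.inr (v₀, ⟨0, hℓ⟩))))
    (by
      intro w
      refine (mux_depth _ _ 2 (addr_depth G d ℓ w) (d * ℓ) _).trans (by omega))
    (by simp only [Fml.depth]; omega)
    (by
      intro w
      have h := mux_size (addr G d ℓ w) (leaf G d ℓ w) 4 (addr_size G d ℓ w) (d * ℓ)
        (fun _ => false)
      unfold phi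
      omega)
    (by
      simp only [Fml.size]
      have : 1 ≤ 2 ^ (d * ℓ) := Nat.one_le_two_pow
      omega)
    (fun w => hH w.1)
    (by
      intro w
      unfold phi
      refine mux_all _ _ _ (fun q => addr_all G d ℓ w q) ?_ _ _
      intro u w' hw'
      unfold leaf at hw'
      cases hw')
  refine ⟨C, ?_, h2.trans (by apply Nat.mul_le_mul_left; omega), ?_⟩
  · rw [Fintype.card_prod, Fintype.card_fin] at h1
    exact h1
  · intro x
    have h4 := h3 (bits x) (valBit G ℓ x) (phi_eval G d ℓ hd x)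
    have h5 : (Fml.not (Fml.lit (Sum.inr (v₀, ⟨0, hℓ⟩) : Lits G ℓ))).eval
        (Sum.elim (bits x) (valBit G ℓ x)) = bit (Dag.value x v₀) := by
      simp only [Fml.eval, Sum.elim_inr, valBit]
      unfold bit
      rw [Nat.testBit_zero]
      have := Nat.mod_two_eq_zero_or_one (Dag.value x v₀).val
      rcases this with h1 | h1 <;> simp [h1]
    rw [← h5]
    exact h4

end Pool.Agent.TH668.Peb
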