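import Pool.Agent.TH668.Peb.L1

/-!
# The law for directed acyclic graphs, in terms of the number of variables
-/

set_option autoImplicit false

namespace Pool.Agent.TH668.Peb

open Finset
open Pool.Agent.W997.SR
open Pool.Agent.W997.TS (DBP bit)
open Pool.Agent.W997.DB (ByCircuit ByProgram HardReadsOrTime Circuit bits)

/-- The lowest bit of the value of the node `v`, over the alphabet `Fin (2 ^ ℓ)`. -/
def nodeBit (G : Dag) (ℓ : ℕ) (v : G.Γ) (x : G.Var (2 ^ ℓ) → Fin (2 ^ ℓ)) : Bool :=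
  bit (Dag.value x v)

/-- The parameters. -/
structure Par (G : Dag) (d L β ℓ : ℕ) (δ N : ℝ) : Prop where
  hd : G.DegLe d
  hd1 : 1 ≤ d
  hδ0 : 0 < δ
  hδ1 : δ ≤ 4 / 5
  hβ : 8 ≤ δ * β
  hL : 1 ≤ L
  hcard : Fintype.card G.Γ ≤ 2 ^ L
  hℓ : ℓ = β * L
  hN : N = Fintype.card (G.Var (2 ^ ℓ))
  hne : 1 ≤ Fintype.card G.Γ

namespace Par

variable {G : Dag} {d L β ℓ : ℕ} {δ N : ℝ}

theorem hN' (P : Par G d L β ℓ δ N) : N = (Fintype.card G.Γ : ℝ) * 2 ^ ℓ := by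
  rw [P.hN, Fintype.card_prod, Fintype.card_fin]
  push_cast
  ring

theorem card_pos (P : Par G d L β ℓ δ N) : (1 : ℝ) ≤ Fintype.card G.Γ := by
  exact_mod_cast P.hne

theorem two_pow_le (P : Par G d L β ℓ δ N) : (2 : ℝ) ^ ℓ ≤ N := by
  rw [P.hN']
  have h1 := P.card_pos
  have h2 : (0 : ℝ) ≤ 2 ^ ℓ := by positivity
  nlinarith

theorem ten_le (P : Par G d L β ℓ δ N) : 10 ≤ ℓ := by
  have h1 := P.hβ
  have h2 := P.hδ1
  have h3 : (10 : ℝ) ≤ β := by
    by_contra h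
    push Not at h
    have h4 := P.hδ0
    nlinarith
  have h4 : 10 ≤ β := by exact_mod_cast h3
  rw [P.hℓ]
  calc 10 = 10 * 1 := by norm_num
    _ ≤ β * L := Nat.mul_le_mul h4 P.hL

theorem N_pos (P : Par G d L β ℓ δ N) : 0 < N :=
  lt_of_lt_of_le (by positivity) P.two_pow_le

theorem N_ge (P : Par G d L β ℓ δ N) : 1024 ≤ N := by
  refine le_trans ?_ P.two_pow_le
  calc (1024 : ℝ) = 2 ^ 10 := by norm_num
    _ ≤ 2 ^ ℓ := pow_le_pow_right₀ (by norm_num) P.ten_le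

theorem log_ge (P : Par G d L β ℓ δ N) : 5 ≤ Real.log N := by
  have h1 := Real.log_le_log (by norm_num) P.N_ge
  have h2 : (5 : ℝ) ≤ Real.log 1024 := by
    have h3 : (1024 : ℝ) = 2 ^ 10 := by norm_num
    rw [h3, Real.log_pow]
    have := Real.log_two_gt_d9
    norm_num
    linarith
  linarith

/-- `2 ^ L ≤ N ^ c` with `c = δ / 8`. -/
theorem pow_L (P : Par G d L β ℓ δ N) : (2 : ℝ) ^ L ≤ N ^ (δ / 8) := by
  have h1 : ((2 : ℝ) ^ ℓ) ^ (δ / 8) ≤ N ^ (δ / 8) :=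
    Real.rpow_le_rpow (by positivity) P.two_pow_le (by have := P.hδ0; linarith)
  refine le_trans ?_ h1
  rw [← Real.rpow_natCast 2 ℓ, ← Real.rpow_mul (by norm_num), ← Real.rpow_natCast 2 L]
  apply Real.rpow_le_rpow_of_exponent_le (by norm_num)
  rw [P.hℓ]
  push_cast
  have h2 := P.hβ
  have h3 : (0 : ℝ) ≤ L := by positivity
  nlinarith

theorem card_le (P : Par G d L β ℓ δ N) : (Fintype.card G.Γ : ℝ) ≤ N ^ (δ / 8) := by
  refine le_trans ?_ P.pow_L
  exact_mod_cast P.hcard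

theorem two_le (P : Par G d L β ℓ δ N) : (2 : ℝ) ≤ N ^ (δ / 8) := by
  refine le_trans ?_ P.pow_L
  calc (2 : ℝ) = 2 ^ 1 := by norm_num
    _ ≤ 2 ^ L := pow_le_pow_right₀ (by norm_num) P.hL

theorem l_le_log (P : Par G d L β ℓ δ N) : (ℓ : ℝ) * Real.log 2 ≤ Real.log N := by
  have h := Real.log_le_log (by positivity) P.two_pow_le
  rwa [Real.log_pow] at h

/-- The circuits. -/
theorem circuits (P : Par G d L β ℓ δ N) (H : ℕ) (hH : ∀ v, G.rk v ≤ H) (v₀ : G.Γ) :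
    ByCircuit (nodeBit G ℓ v₀) (N ^ (d + 2)) (5 * d * (H + 2) * Real.log N) := by
  have hℓ10 := P.ten_le
  obtain ⟨C, h1, h2, h3⟩ := circuit G d ℓ H (fun v => (P.hd v).1) hH (by omega) v₀
  refine ⟨C, ?_, ?_, h3⟩
  · have h4 : (C.size : ℝ) ≤ ((Fintype.card G.Γ * ℓ + 1) * (13 * 2 ^ (d * ℓ)) : ℕ) := by
      exact_mod_cast h1
    refine h4.trans ?_
    have h5 : (Fintype.card G.Γ * ℓ + 1) * (13 * 2 ^ (d * ℓ)) ≤
        Fintype.card G.Γ * (2 ^ ℓ) ^ (d + 2) := by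
      have h6 : Fintype.card G.Γ * ℓ + 1 ≤ Fintype.card G.Γ * (ℓ + 1) := by
        have := P.hne
        rw [Nat.mul_add, mul_one]
        omega
      have h7 : 13 * (ℓ + 1) ≤ 2 ^ ℓ * 2 ^ ℓ := by
        have h8 : ℓ < 2 ^ ℓ := Nat.lt_two_pow_self
        have h9 : 13 ≤ 2 ^ ℓ := by
          calc 13 ≤ 2 ^ 10 := by norm_num
            _ ≤ 2 ^ ℓ := Nat.pow_le_pow_right (by norm_num) hℓ10
        exact Nat.mul_le_mul h9 h8
      calc (Fintype.card G.Γ * ℓ + 1) * (13 * 2 ^ (d * ℓ))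
          ≤ (Fintype.card G.Γ * (ℓ + 1)) * (13 * 2 ^ (d * ℓ)) := Nat.mul_le_mul_right _ h6
        _ = Fintype.card G.Γ * ((13 * (ℓ + 1)) * 2 ^ (d * ℓ)) := by ring
        _ ≤ Fintype.card G.Γ * ((2 ^ ℓ * 2 ^ ℓ) * 2 ^ (d * ℓ)) := by gcongr
        _ = Fintype.card G.Γ * (2 ^ ℓ) ^ (d + 2) := by
          rw [← pow_mul, ← pow_add, ← pow_add]
          congr 2
          ring
    have h6 : (((Fintype.card G.Γ * ℓ + 1) * (13 * 2 ^ (d * ℓ)) : ℕ) : ℝ) ≤
        (Fintype.card G.Γ : ℝ) * (2 ^ ℓ) ^ (d + 2) := by exact_mod_cast h5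
    refine h6.trans ?_
    rw [P.hN', mul_pow]
    apply mul_le_mul_of_nonneg_right _ (by positivity)
    have h7 := P.card_pos
    calc (Fintype.card G.Γ : ℝ) = (Fintype.card G.Γ : ℝ) ^ 1 := (pow_one _).symm
      _ ≤ (Fintype.card G.Γ : ℝ) ^ (d + 2) := pow_le_pow_right₀ h7 (by omega)
  · have h4 : (C.depth : ℝ) ≤ ((H : ℝ) + 2) * (2 * (d * ℓ) + 4) := by exact_mod_cast h2
    refine h4.trans ?_
    have h5 := P.l_le_log
    have h6 := Real.log_two_gt_d9
    have h7 : (ℓ : ℝ) ≤ 3 / 2 * Real.log N := by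
      have h8 : (0 : ℝ) ≤ ℓ := by positivity
      nlinarith
    have h8 := P.log_ge
    have h9 : (1 : ℝ) ≤ d := by exact_mod_cast P.hd1
    have h10 : (2 * ((d : ℝ) * ℓ) + 4) ≤ 5 * d * Real.log N := by
      have h11 : (d : ℝ) * ℓ ≤ d * (3 / 2 * Real.log N) := mul_le_mul_of_nonneg_left h7 (by linarith)
      have h12 : (4 : ℝ) ≤ d * Real.log N := by nlinarith
      nlinarith
    calc ((H : ℝ) + 2) * (2 * (d * ℓ) + 4) ≤ ((H : ℝ) + 2) * (5 * d * Real.log N) :=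
          mul_le_mul_of_nonneg_left h10 (by positivity)
      _ = 5 * d * (H + 2) * Real.log N := by ring

/-- Pebblings give programs. -/
theorem upper (P : Par G d L β ℓ δ N) (v₀ : G.Γ) (p t : ℕ) (hw : G.Pebbles v₀ p t) :
    ByProgram (nodeBit G ℓ v₀) (Real.log t + p * Real.log N) t (Fintype.card G.Γ) := by
  obtain ⟨Q, h1, h2⟩ := Dag.program (k := 2 ^ ℓ) v₀ p t hw
  refine ⟨Q, ?_, ?_⟩
  · have h3 : 0 < Q.size := Fintype.card_pos_iff.2 ⟨Q.start⟩
    have ht : t ≠ 0 := by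
      rintro rfl
      exact absurd hw (notMem_empty v₀)
    have h4 : (Q.size : ℝ) ≤ t * ((2 : ℝ) ^ ℓ) ^ p := by exact_mod_cast h1
    have h5 := Real.log_le_log (by exact_mod_cast h3) h4
    have ht' : (t : ℝ) ≠ 0 := by exact_mod_cast ht
    rw [Real.log_mul ht' (by positivity), Real.log_pow] at h5
    refine h5.trans ?_
    have h6 := Real.log_le_log (by positivity) P.two_pow_le
    have h7 : (p : ℝ) * Real.log (2 ^ ℓ) ≤ p * Real.log N :=
      mul_le_mul_of_nonneg_left h6 (by positivity)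
    linarith
  · intro x
    obtain ⟨m, h3, h4⟩ := h2 x
    exact ⟨t, m, le_rfl, by exact_mod_cast h3, h4⟩

/-- **Programs which read few variables are pebblings.** -/
theorem lower (P : Par G d L β ℓ δ N) (v₀ : G.Γ) (htop : ∀ v, v₀ ∉ G.kid v) (m τ : ℕ)
    (hm : 1 ≤ m) (hno : ∀ t < τ, ¬ G.Pebbles v₀ (m * d ^ 2) t) :
    HardReadsOrTime (nodeBit G ℓ v₀) (δ / 8 * m * Real.log N) (N ^ (-(δ / 8))) (N ^ (1 - δ))
      (N ^ (-(δ / 8)) / 2 * τ) := by
  intro Q T M R hS hrun hag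
  have hN0 := P.N_pos
  have hδ0 := P.hδ0
  set c : ℝ := δ / 8 with hc
  set n : ℝ := (Fintype.card G.Γ : ℝ) with hn
  have hn1 : 1 ≤ n := P.card_pos
  have hnc : n ≤ N ^ c := P.card_le
  set t : ℕ := ⌊2 * N ^ (1 - δ + c)⌋₊ with ht
  have ht0 : (0 : ℝ) ≤ 2 * N ^ (1 - δ + c) := by positivity
  have ht1 : (t : ℝ) ≤ 2 * N ^ (1 - δ + c) := Nat.floor_le ht0
  have ht2 : 2 * N ^ (1 - δ + c) < (t : ℝ) + 1 := Nat.lt_floor_add_one _
  set γ : ℝ := N ^ (-c) with hγ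
  have hγ0 : 0 < γ := by positivity
  have h2 : (2 : ℝ) ≤ N ^ c := P.two_le
  have heven : Even (2 ^ ℓ) := by
    have := P.ten_le
    exact (even_two).pow_of_ne_zero (by omega)
  -- the failure probability
  have hk : ((2 ^ ℓ : ℕ) : ℝ) = N / n := by
    have hn0 : n ≠ 0 := by linarith
    rw [eq_div_iff hn0, P.hN', ← hn]
    push_cast
    ring
  have hF : ((Fintype.card G.Γ * t : ℕ) / ((2 ^ ℓ : ℕ) : ℝ) : ℝ) ≤ 2 * N ^ (-(5 * c)) := by
    rw [hk]
    push_cast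
    rw [← hn, div_div_eq_mul_div, div_le_iff₀ hN0]
    have e1 : n * n ≤ N ^ c * N ^ c := mul_le_mul hnc hnc (by linarith) (by positivity)
    calc n * t * n = n * n * t := by ring
      _ ≤ (N ^ c * N ^ c) * (2 * N ^ (1 - δ + c)) :=
          mul_le_mul e1 ht1 (by positivity) (by positivity)
      _ = 2 * N ^ (-(5 * c)) * N := by
          have e2 : N ^ c * N ^ c * (2 * N ^ (1 - δ + c)) = 2 * N ^ (c + c + (1 - δ + c)) := by
            rw [Real.rpow_add hN0 (c + c) (1 - δ + c), Real.rpow_add hN0 c c]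
            ring
          have e3 : 2 * N ^ (-(5 * c)) * N = 2 * N ^ (-(5 * c) + 1) := by
            rw [Real.rpow_add hN0, Real.rpow_one]
            ring
          rw [e2, e3]
          congr 2
          rw [hc]
          ring
  set F : ℝ := ((Fintype.card G.Γ * t : ℕ) / ((2 ^ ℓ : ℕ) : ℝ) : ℝ) with hFdef
  have hF0 : 0 ≤ F := by positivity
  have hSize0 : (0 : ℝ) < Q.size := by
    have : 0 < Q.size := Fintype.card_pos_iff.2 ⟨Q.start⟩
    exact_mod_cast this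
  have hSize : (Q.size : ℝ) ≤ (N ^ c) ^ m := by
    rw [← Real.exp_log hSize0]
    have e1 : (N ^ c) ^ m = Real.exp (c * m * Real.log N) := by
      rw [← Real.rpow_natCast, ← Real.rpow_mul hN0.le, Real.rpow_def_of_pos hN0]
      congr 1
      ring
    rw [e1]
    exact Real.exp_le_exp.2 hS
  have hinv : N ^ (-c) * N ^ c = 1 := by
    rw [← Real.rpow_add hN0, neg_add_cancel, Real.rpow_zero]
  have hγhalf : γ ≤ 1 / 2 := by
    rw [hγ]
    nlinarith [Real.rpow_pos_of_pos hN0 (-c)]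
  have e5 : N ^ (-(5 * c)) = γ ^ 5 := by
    rw [hγ, ← Real.rpow_natCast, ← Real.rpow_mul hN0.le]
    congr 1
    push_cast
    ring
  have hfail : F + Q.size * F ^ m ≤ γ := by
    have f1 : F ≤ 2 * γ ^ 5 := by rw [← e5]; exact hF
    have f2 : (Q.size : ℝ) * F ^ m ≤ (N ^ c * F) ^ m := by
      rw [mul_pow]
      exact mul_le_mul_of_nonneg_right hSize (by positivity)
    have f3 : N ^ c * F ≤ 2 * γ ^ 4 := by
      calc N ^ c * F ≤ N ^ c * (2 * γ ^ 5) := mul_le_mul_of_nonneg_left f1 (by positivity)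
        _ = (γ * N ^ c) * (2 * γ ^ 4) := by ring
        _ = 2 * γ ^ 4 := by rw [hγ, hinv, one_mul]
    have g2 : γ ^ 2 ≤ 1 / 4 := by nlinarith
    have g3 : γ ^ 3 ≤ 1 / 8 := by
      have : γ ^ 3 = γ * γ ^ 2 := by ring
      rw [this]
      nlinarith [sq_nonneg γ]
    have f4 : 2 * γ ^ 4 ≤ 1 := by
      have : γ ^ 4 = γ * γ ^ 3 := by ring
      rw [this]
      have : 0 ≤ γ ^ 3 := by positivity
      nlinarith
    have f5 : (N ^ c * F) ^ m ≤ 2 * γ ^ 4 := by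
      have f6 : (N ^ c * F) ^ m ≤ (2 * γ ^ 4) ^ m := pow_le_pow_left₀ (by positivity) f3 m
      have f7 : (2 * γ ^ 4) ^ m ≤ (2 * γ ^ 4) ^ 1 :=
        pow_le_pow_of_le_one (by positivity) f4 hm
      rw [pow_one] at f7
      exact f6.trans f7
    have f8 : 2 * γ ^ 5 ≤ γ ^ 4 := by
      have : γ ^ 5 = γ * γ ^ 4 := by ring
      rw [this]
      have : 0 ≤ γ ^ 4 := by positivity
      nlinarith
    have f9 : 3 * γ ^ 4 ≤ γ := by
      have : γ ^ 4 = γ * γ ^ 3 := by ring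
      rw [this]
      nlinarith
    linarith
  have key := (G.net (2 ^ ℓ)).law_avg2 m t τ γ heven Nat.one_le_two_pow Q v₀ htop
    (fun x => Dag.value x) (fun x v => Dag.value_eq' x v)
    (by
      intro z l hg
      by_contra hcon
      push Not at hcon
      obtain ⟨t', h5, h6⟩ := Dag.wins_of_good Q z v₀ m d P.hd P.hd1 l hg
      exact hno t' (by omega) h6) T M R hrun hfail hag
  rcases key with h5 | h5
  · left
    refine le_trans (mul_le_mul_of_nonneg_right ?_ (by positivity)) h5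
    have e6 : N ^ (1 - δ) = γ / 2 * (2 * N ^ (1 - δ + c)) := by
      have : γ / 2 * (2 * N ^ (1 - δ + c)) = N ^ (-c) * N ^ (1 - δ + c) := by
        rw [hγ]
        ring
      rw [this, ← Real.rpow_add hN0]
      congr 1
      ring
    rw [e6]
    exact mul_le_mul_of_nonneg_left ht2.le (by positivity)
  · right
    exact h5

end Par

end Pool.Agent.TH668.Peb
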