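import Pool.Agent.TH668.Peb.L2

/-!
# Families of graphs: programs with small space and small time
-/

set_option autoImplicit false

namespace Pool.Agent.TH668.Peb

open Finset
open Pool.Agent.W997.SR
open Pool.Agent.W997.TS (DBP bit)
open Pool.Agent.W997.DB (ByCircuit ByProgram HardReadsOrTime)

theorem hard_mono {V : Type} [Fintype V] [DecidableEq V] {k : ℕ} {f : (V → Fin k) → Bool}
    {s s' γ m t t' : ℝ} (hs : s' ≤ s) (ht : t' ≤ t) (h : HardReadsOrTime f s γ m t) :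
    HardReadsOrTime f s' γ m t' := by
  intro P T M R hS hrun hag
  rcases h P T M R (hS.trans hs) hrun hag with h1 | h1
  · exact Or.inl h1
  · exact Or.inr ((mul_le_mul_of_nonneg_right ht (by positivity)).trans h1)

namespace Par

variable {G : Dag} {d L β ℓ : ℕ} {δ N : ℝ}

theorem ab (P : Par G d L β ℓ δ N) (v₀ : G.Γ) (a p t : ℕ) (hp : (p : ℝ) ≤ Real.log N ^ a)
    (ht : (t : ℝ) ≤ N ^ a) (hw : G.Pebbles v₀ p t) :
    ByProgram (nodeBit G ℓ v₀) (Real.log N ^ (a + 2)) (N ^ (a + 2)) (N ^ (δ / 8)) := by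
  have hlog := P.log_ge
  have hN0 := P.N_pos
  have hN := P.N_ge
  obtain ⟨Q, h1, h2⟩ := P.upper v₀ p t hw
  have ht0 : t ≠ 0 := by
    rintro rfl
    exact absurd hw (notMem_empty v₀)
  refine ⟨Q, h1.trans ?_, ?_⟩
  · have h3 : Real.log t ≤ a * Real.log N := by
      rw [← Real.log_pow]
      exact Real.log_le_log (by positivity) ht
    have h4 : (a : ℝ) ≤ Real.log N ^ a := by
      have h5 : (a : ℝ) ≤ 2 ^ a := by exact_mod_cast (Nat.lt_two_pow_self).le
      exact h5.trans (pow_le_pow_left₀ (by norm_num) (by linarith) a)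
    have h5 : (0 : ℝ) ≤ Real.log N ^ a := by positivity
    calc Real.log t + p * Real.log N ≤ Real.log N ^ a * Real.log N + Real.log N ^ a * Real.log N :=
          add_le_add (h3.trans (mul_le_mul_of_nonneg_right h4 (by linarith)))
            (mul_le_mul_of_nonneg_right hp (by linarith))
      _ = Real.log N ^ a * Real.log N * 2 := by ring
      _ ≤ Real.log N ^ a * Real.log N * Real.log N :=
          mul_le_mul_of_nonneg_left (by linarith) (by positivity)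
      _ = Real.log N ^ (a + 2) := by ring
  · intro x
    obtain ⟨t', m', h3, h4, h5⟩ := h2 x
    refine ⟨t', m', h3.trans (ht.trans ?_), h4.trans P.card_le, h5⟩
    exact pow_le_pow_right₀ (by linarith) (by omega)

theorem bc (P : Par G d L β ℓ δ N) (v₀ : G.Γ) (a : ℕ)
    (h : ByProgram (nodeBit G ℓ v₀) (Real.log N ^ a) (N ^ a) (N ^ (δ / 8))) :
    ¬ HardReadsOrTime (nodeBit G ℓ v₀) (Real.log N ^ (a + 1)) (N ^ (-(δ / 8))) (N ^ (1 - δ))
      (N ^ (a + 1)) := by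
  intro hH
  have hlog := P.log_ge
  have hN0 := P.N_pos
  have hN := P.N_ge
  have hδ0 := P.hδ0
  have hδ1 := P.hδ1
  obtain ⟨Q, h1, h2⟩ := h
  choose T M hT hM hrun using h2
  have hcard : (0 : ℝ) < Fintype.card (G.Var (2 ^ ℓ) → Fin (2 ^ ℓ)) := by
    have : 0 < Fintype.card (G.Var (2 ^ ℓ) → Fin (2 ^ ℓ)) := Fintype.card_pos
    exact_mod_cast this
  have hag : (1 / 2 + N ^ (-(δ / 8))) * (Fintype.card (G.Var (2 ^ ℓ) → Fin (2 ^ ℓ)) : ℝ) ≤
      ((univ.filter (fun x => nodeBit G ℓ v₀ x = nodeBit G ℓ v₀ x)).card : ℝ) := by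
    rw [filter_true_of_mem (fun x _ => rfl), card_univ]
    have h3 : N ^ (-(δ / 8)) ≤ 1 / 2 := by
      rw [Real.rpow_neg hN0.le, one_div]
      exact inv_anti₀ (by norm_num) P.two_le
    nlinarith
  have hS : Real.log Q.size ≤ Real.log N ^ (a + 1) :=
    h1.trans (pow_le_pow_right₀ (by linarith) (by omega))
  rcases hH Q T M (nodeBit G ℓ v₀) hS hrun hag with h3 | h3
  · have h4 : ∑ x, (M x : ℝ) ≤ N ^ (δ / 8) * Fintype.card (G.Var (2 ^ ℓ) → Fin (2 ^ ℓ)) := by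
      calc ∑ x, (M x : ℝ) ≤ ∑ _x : G.Var (2 ^ ℓ) → Fin (2 ^ ℓ), N ^ (δ / 8) :=
            sum_le_sum fun x _ => hM x
        _ = _ := by rw [sum_const, card_univ, nsmul_eq_mul, mul_comm]
    have h5 : N ^ (δ / 8) < N ^ (1 - δ) :=
      Real.rpow_lt_rpow_of_exponent_lt (by linarith) (by linarith)
    have h6 := mul_lt_mul_of_pos_right h5 hcard
    linarith
  · have h4 : ∑ x, (T x : ℝ) ≤ N ^ a * Fintype.card (G.Var (2 ^ ℓ) → Fin (2 ^ ℓ)) := by
      calc ∑ x, (T x : ℝ) ≤ ∑ _x : G.Var (2 ^ ℓ) → Fin (2 ^ ℓ), N ^ a :=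
            sum_le_sum fun x _ => hT x
        _ = _ := by rw [sum_const, card_univ, nsmul_eq_mul, mul_comm]
    have h5 : N ^ a < N ^ (a + 1) := pow_lt_pow_right₀ (by linarith) (by omega)
    have h6 := mul_lt_mul_of_pos_right h5 hcard
    linarith

theorem ca (P : Par G d L β ℓ δ N) (v₀ : G.Γ) (htop : ∀ v, v₀ ∉ G.kid v) (a A : ℕ)
    (hA : (8 / δ + 2) * (d : ℝ) ^ 2 ≤ 5 ^ A)
    (h : ¬ HardReadsOrTime (nodeBit G ℓ v₀) (Real.log N ^ a) (N ^ (-(δ / 8))) (N ^ (1 - δ))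
      (N ^ a)) :
    ∃ p t : ℕ, (p : ℝ) ≤ Real.log N ^ (a + A + 2) ∧ (t : ℝ) ≤ N ^ (a + A + 2) ∧
      G.Pebbles v₀ p t := by
  have hlog := P.log_ge
  have hN0 := P.N_pos
  have hN := P.N_ge
  have hδ0 := P.hδ0
  have hδ1 := P.hδ1
  by_contra hcon
  push Not at hcon
  apply h
  set x := Real.log N ^ a with hx
  have hx1 : 1 ≤ x := one_le_pow₀ (by linarith)
  set m : ℕ := ⌈x * (8 / δ)⌉₊ + 1 with hm
  set τ : ℕ := ⌈2 * N ^ a * N ^ (δ / 8)⌉₊ with hτ
  have h8 : (0 : ℝ) ≤ x * (8 / δ) := by positivity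
  have hm1 : x * (8 / δ) ≤ m := by
    rw [hm]
    push_cast
    have := Nat.le_ceil (x * (8 / δ))
    linarith
  have hm2 : (m : ℝ) ≤ x * (8 / δ) + 2 := by
    rw [hm]
    push_cast
    have := (Nat.ceil_lt_add_one h8).le
    linarith
  have hmd : ((m * d ^ 2 : ℕ) : ℝ) ≤ Real.log N ^ (a + A + 2) := by
    push_cast
    calc (m : ℝ) * (d : ℝ) ^ 2 ≤ (x * (8 / δ) + 2) * (d : ℝ) ^ 2 :=
          mul_le_mul_of_nonneg_right hm2 (by positivity)
      _ ≤ (x * (8 / δ + 2)) * (d : ℝ) ^ 2 := by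
          apply mul_le_mul_of_nonneg_right _ (by positivity)
          nlinarith
      _ = x * ((8 / δ + 2) * (d : ℝ) ^ 2) := by ring
      _ ≤ x * 5 ^ A := mul_le_mul_of_nonneg_left hA (by positivity)
      _ ≤ x * Real.log N ^ A :=
          mul_le_mul_of_nonneg_left (pow_le_pow_left₀ (by norm_num) hlog A) (by positivity)
      _ = Real.log N ^ (a + A) := by rw [hx, pow_add]
      _ ≤ Real.log N ^ (a + A + 2) := pow_le_pow_right₀ (by linarith) (by omega)
  have hc1 : N ^ (δ / 8) ≤ N := by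
    calc N ^ (δ / 8) ≤ N ^ (1 : ℝ) :=
          Real.rpow_le_rpow_of_exponent_le (by linarith) (by linarith)
      _ = N := Real.rpow_one N
  have hno : ∀ t < τ, ¬ G.Pebbles v₀ (m * d ^ 2) t := by
    intro t ht
    refine hcon _ t hmd ?_
    have h1 : (t : ℝ) < 2 * N ^ a * N ^ (δ / 8) := Nat.lt_ceil.1 ht
    refine h1.le.trans ?_
    calc 2 * N ^ a * N ^ (δ / 8) ≤ N * N ^ a * N := by
          have : (2 : ℝ) ≤ N := by linarith
          gcongr
      _ = N ^ (a + 2) := by ring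
      _ ≤ N ^ (a + A + 2) := pow_le_pow_right₀ (by linarith) (by omega)
  have key := P.lower v₀ htop m τ (by omega) hno
  refine hard_mono ?_ ?_ key
  · calc Real.log N ^ a = x := rfl
      _ = δ / 8 * (x * (8 / δ)) := by field_simp
      _ ≤ δ / 8 * m := mul_le_mul_of_nonneg_left hm1 (by positivity)
      _ = δ / 8 * m * 1 := by ring
      _ ≤ δ / 8 * m * Real.log N :=
          mul_le_mul_of_nonneg_left (by linarith) (by positivity)
  · have h1 : 2 * N ^ a * N ^ (δ / 8) ≤ τ := Nat.le_ceil _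
    have h2 : N ^ (-(δ / 8)) * N ^ (δ / 8) = 1 := by
      rw [← Real.rpow_add hN0, neg_add_cancel, Real.rpow_zero]
    calc N ^ a = (N ^ (-(δ / 8)) * N ^ (δ / 8)) * N ^ a := by rw [h2, one_mul]
      _ = N ^ (-(δ / 8)) / 2 * (2 * N ^ a * N ^ (δ / 8)) := by ring
      _ ≤ N ^ (-(δ / 8)) / 2 * τ := mul_le_mul_of_nonneg_left h1 (by positivity)

end Par

end Pool.Agent.TH668.Peb
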